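import Pool.Agent.H2.ST.Targets

/-!
MP_51eb24_ag, board st2_modules, row PHI: a nonconstant invariant with locally nilpotent bracket on
the centralizer.
-/

set_option autoImplicit false

open Pool.Agent.H2.ST MvPolynomial

namespace Pool.Agent.H90.ST2

variable {k : Type} [Field k] {m : ℕ}

/-! ### Polynomials in the coordinates `x_i` -/

/-- the embedding of the polynomials in the `x_i` -/
noncomputable def em (p : MvPolynomial (Fin m) k) : Pol k m := rename Sum.inl p

lemma pderiv_inr_em (j : Fin m) (p : MvPolynomial (Fin m) k) : pderiv (Sum.inr j) (em p) = 0 := by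
  unfold em
  induction p using MvPolynomial.induction_on with
  | C a => rw [rename_C, pderiv_C]
  | add p q hp hq => rw [map_add, map_add, hp, hq, add_zero]
  | mul_X p i hp =>
    rw [map_mul, rename_X, Derivation.leibniz, hp, pderiv_X_of_ne (by simp), smul_zero, smul_zero,
      add_zero]

lemma pderiv_inl_em (j : Fin m) (p : MvPolynomial (Fin m) k) :
    pderiv (Sum.inl j) (em p) = em (pderiv j p) := by
  classical
  unfold em
  exact pderiv_rename Sum.inl_injective j p

lemma br_em (p q : MvPolynomial (Fin m) k) : br (em p) (em q) = 0 := by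
  unfold br
  refine Finset.sum_eq_zero fun i _ => ?_
  rw [pderiv_inr_em, pderiv_inr_em, mul_zero, zero_mul, sub_zero]

lemma nil_em (hN : T_NIL) (p : MvPolynomial (Fin m) k) (f : Pol k m) :
    ∃ n : ℕ, (br (em p))^[n] f = 0 := by
  have e : (ad (em p) : Pol k m → Pol k m) = br (em p) := by
    funext g
    exact ad_apply _ _
  have h1 := hN k (Pol k m) (ad (em p)) (Set.range (X : Fin m ⊕ Fin m → Pol k m)) (by
    rintro _ ⟨s, rfl⟩
    rw [e]
    rcases s with j | j
    · refine ⟨1, ?_⟩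
      rw [Function.iterate_one, br_inl, pderiv_inr_em, neg_zero]
    · refine ⟨2, ?_⟩
      show br (em p) (br (em p) (X (Sum.inr j))) = 0
      rw [br_inr, pderiv_inl_em, br_em]) f (by
    rw [MvPolynomial.adjoin_range_X]
    exact Algebra.mem_top)
  rwa [e] at h1

/-! ### The lexicographic order on the weights -/

lemma pgr_lex {d : ℕ} {W : (Fin d → ℤ) → Submodule k (Pol k m)} (h : PGr W) :
    PGr (Γ := Lex (Fin d → ℤ)) (fun a => W (ofLex a)) where
  one := h.one
  mul a b f g hf hg := h.mul (ofLex a) (ofLex b) f g hf hg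
  dec f := h.dec f
  ind c hc h0 := h.ind c hc h0
  pbr a b f g hf hg := h.pbr (ofLex a) (ofLex b) f g hf hg
  van a ha f hf := h.van (ofLex a) ha f hf

lemma cmp_lex {d : ℕ} {W : (Fin d → ℤ) → Submodule k (Pol k m)} (h : PGr W)
    (h' : PGr (Γ := Lex (Fin d → ℤ)) (fun a => W (ofLex a))) (f : Pol k m)
    (a : Lex (Fin d → ℤ)) : cmp h'.toGr f a = cmp h.toGr f (ofLex a) := by
  have h1 : cmp h'.toGr f = (cmp h.toGr f : (Fin d → ℤ) →₀ Pol k m) :=
    cmp_uniq h'.toGr f _ (fun a => cmp_mem h.toGr f (ofLex a)) (cmp_sum h.toGr f)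
  rw [h1]
  rfl

/-! ### Many monomials of bounded degree -/

/-- the exponent of a multiset -/
noncomputable def ex {m N : ℕ} (s : Sym (Fin (m + 1)) N) : Fin m →₀ ℕ :=
  Finsupp.equivFunOnFinite.symm fun i => Multiset.count (Fin.castSucc i) (s : Multiset (Fin (m + 1)))

lemma ex_apply {m N : ℕ} (s : Sym (Fin (m + 1)) N) (i : Fin m) :
    ex s i = Multiset.count (Fin.castSucc i) (s : Multiset (Fin (m + 1))) := rfl

lemma ex_sum {m N : ℕ} (s : Sym (Fin (m + 1)) N) :
    ∑ i, ex s i + Multiset.count (Fin.last m) (s : Multiset (Fin (m + 1))) = N := by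
  have h1 : ∑ i, Multiset.count i (s : Multiset (Fin (m + 1))) = N := by
    rw [Multiset.sum_count_eq_card fun a _ => Finset.mem_univ a]
    exact s.2
  rw [Fin.sum_univ_castSucc] at h1
  exact h1

lemma ex_inj {m N : ℕ} : Function.Injective (ex : Sym (Fin (m + 1)) N → Fin m →₀ ℕ) := by
  intro s t hst
  have h1 := ex_sum s
  have h2 := ex_sum t
  rw [← hst] at h2
  refine Sym.coe_injective (Multiset.ext.2 fun a => ?_)
  refine Fin.lastCases ?_ (fun i => ?_) a
  · omega
  · rw [← ex_apply, ← ex_apply, hst]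


/-! ### The top weight -/

lemma e_uniq {d : ℕ} {W : (Fin d → ℤ) → Submodule k (Pol k m)} {w : Fin m → Fin d → ℤ}
    {π : Fin m → (Fin d → ℤ) →+ ℤ} {u v : Fin m → Pol k m} {c : Fin m → k}
    (hS : Spl W w π u v c) {e e' : Fin m → ℤ} (he : ∀ i, w i = 0 → e i = 0)
    (he' : ∀ i, w i = 0 → e' i = 0) (h : ∑ i, e i • w i = ∑ i, e' i • w i) : e = e' := by
  funext i
  by_cases hi : w i = 0
  · rw [he i hi, he' i hi]
  · have key : ∀ f : Fin m → ℤ, π i (∑ l, f l • w l) = f i * π i (w i) := by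
      intro f
      rw [map_sum, Finset.sum_eq_single i]
      · rw [map_zsmul, smul_eq_mul]
      · intro l _ hl
        rw [map_zsmul, hS.pz i hi l hl, smul_zero]
      · intro h0
        exact absurd (Finset.mem_univ _) h0
    have h1 := congrArg (π i) h
    rw [key, key] at h1
    exact mul_right_cancel₀ (hS.par i hi).pa.ne' h1

lemma top_wt [CharZero k] (h1 : T_NIL) (h2 : T_HMF) (h3 : T_TOP) {d : ℕ}
    {W : (Fin d → ℤ) → Submodule k (Pol k m)} {w : Fin m → Fin d → ℤ}
    {π : Fin m → (Fin d → ℤ) →+ ℤ} {u v : Fin m → Pol k m} {c : Fin m → k}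
    (hS : Spl W w π u v c)
    (hnil : ∀ i, w i ≠ 0 → ∀ f : Pol k m,
      (∃ n : ℕ, (br (u i))^[n] f = 0) ∧ (∃ n : ℕ, (br (v i))^[n] f = 0))
    (hcon : ∀ φ ∈ Cen (act w u v), (∀ g ∈ Cen (act w u v), ∃ n : ℕ, (br φ)^[n] g = 0) →
      ∃ c : k, φ = C c) (p : MvPolynomial (Fin m) k) (hp : em p ≠ 0) :
    ∃ (χ : Fin d → ℤ) (e : Fin m → ℤ) (b : k), (∀ i, w i = 0 → e i = 0) ∧
      χ = ∑ i, e i • w i ∧ b ≠ 0 ∧ mon u v e ≠ 0 ∧
      cmp hS.toPGr.toGr (em p) χ = mon u v e * C b := by
  classical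
  set h := hS.toPGr with hh
  have h' := pgr_lex h
  have hne : (cmp h'.toGr (em p)).support.Nonempty := by
    rw [Finset.nonempty_iff_ne_empty]
    intro h0
    refine hp ?_
    rw [← cmp_sum h'.toGr (em p), Finsupp.sum, h0, Finset.sum_empty]
  set a := (cmp h'.toGr (em p)).support.max' hne with ha
  have ha1 : cmp h'.toGr (em p) a ≠ 0 := Finsupp.mem_support_iff.1 (Finset.max'_mem _ hne)
  have ha2 : ∀ b, a < b → cmp h'.toGr (em p) b = 0 := by
    intro b hab
    by_contra hb
    have h4 := Finset.le_max' _ b (Finsupp.mem_support_iff.2 hb)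
    exact absurd hab (not_lt.2 h4)
  have h5 := h3 k m (Lex (Fin d → ℤ)) _ h' (em p) a (nil_em h1 p) ha2
  rw [cmp_lex h h'] at ha1 h5
  set F := cmp h.toGr (em p) (ofLex a) with hF
  obtain ⟨e, he1, he2, φ, hφ, hφe, hφn⟩ := h2 k m (Fin d → ℤ) W w π u v c hS hnil (ofLex a) F
    (cmp_mem h.toGr _ _) ha1 h5
  obtain ⟨b, hb⟩ := hcon φ hφ hφn
  refine ⟨ofLex a, e, b, he1, he2, ?_, ?_, ?_⟩
  · intro h0
    rw [hφe, hb, h0, C_0, mul_zero] at ha1
    exact ha1 rfl
  · intro h0
    rw [hφe, h0, zero_mul] at ha1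
    exact ha1 rfl
  · rw [← hb]
    exact hφe

theorem pf_PHI (h1 : T_NIL) (h2 : T_HMF) (h3 : T_TOP) (h4 : T_BOX) (h5 : T_CNT) : T_PHI := by
  classical
  intro k _ _ m d W w π u v c hS hnil hdm
  by_contra hneg
  push Not at hneg
  have hcon : ∀ φ ∈ Cen (act w u v), (∀ g ∈ Cen (act w u v), ∃ n : ℕ, (br φ)^[n] g = 0) →
      ∃ c : k, φ = C c := by
    intro φ hφ hn
    by_contra hc
    push Not at hc
    obtain ⟨g, hg, hgn⟩ := hneg φ hφ hc
    obtain ⟨n, hgn'⟩ := hn g hg
    exact hgn n hgn'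
  set h := hS.toPGr with hh
  obtain ⟨Bd, hB⟩ := h4 k m d W h
  obtain ⟨N, hN⟩ := h5 d m Bd hdm
  -- the exponents
  have hex : ∀ χ : Fin d → ℤ, ∃ n : Fin m ⊕ Fin m →₀ ℕ, ∀ e : Fin m → ℤ,
      (∀ i, w i = 0 → e i = 0) → χ = ∑ i, e i • w i → mon u v e ≠ 0 →
      coeff n (mon u v e) ≠ 0 := by
    intro χ
    by_cases hχ : ∃ e : Fin m → ℤ, (∀ i, w i = 0 → e i = 0) ∧ χ = ∑ i, e i • w i ∧ mon u v e ≠ 0
    · obtain ⟨e, he1, he2, he3⟩ := hχ
      obtain ⟨n, hn⟩ := MvPolynomial.ne_zero_iff.1 he3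
      refine ⟨n, fun e' he1' he2' _ => ?_⟩
      have : e' = e := e_uniq hS he1' he1 (by rw [← he2', he2])
      rw [this]
      exact hn
    · refine ⟨0, fun e he1 he2 he3 => absurd ⟨e, he1, he2, he3⟩ hχ⟩
  choose nn hnn using hex
  set Box : Finset (Fin d → ℤ) :=
    Fintype.piFinset fun _ : Fin d => Finset.Icc (-((Bd * N : ℕ) : ℤ)) ((Bd * N : ℕ) : ℤ) with hBox
  have hBc : Box.card = (2 * (Bd * N) + 1) ^ d := by
    rw [hBox, Fintype.card_piFinset, Finset.prod_const, Int.card_Icc, Finset.card_univ,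
      Fintype.card_fin]
    congr 1
    omega
  -- the family
  set E := Sym (Fin (m + 1)) N with hE
  have hEc : Fintype.card E = Nat.choose (N + m) m := by
    have h0 : Fintype.card (Sym (Fin (m + 1)) N) = _ := Sym.card_sym_eq_choose N
    rw [Fintype.card_fin] at h0
    have : m + 1 + N - 1 = N + m := by omega
    rw [this] at h0
    exact h0.trans Nat.choose_symm_add
  let G : (E → k) →ₗ[k] MvPolynomial (Fin m) k :=
    { toFun := fun a => ∑ s, a s • monomial (ex s) (1 : k)
      map_add' := by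
        intro a b
        rw [← Finset.sum_add_distrib]
        exact Finset.sum_congr rfl fun s _ => add_smul _ _ _
      map_smul' := by
        intro r a
        rw [Finset.smul_sum]
        exact Finset.sum_congr rfl fun s _ => by rw [Pi.smul_apply, smul_assoc]; rfl }
  have hGa : ∀ a, G a = ∑ s, a s • monomial (ex s) (1 : k) := fun _ => rfl
  have hGc : ∀ (a : E → k) (t : E), coeff (ex t) (G a) = a t := by
    intro a t
    rw [hGa, coeff_sum, Finset.sum_eq_single t]
    · rw [coeff_smul, coeff_monomial, if_pos rfl, smul_eq_mul, mul_one]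
    · intro s _ hst
      rw [coeff_smul, coeff_monomial, if_neg (fun h0 => hst (ex_inj h0)), smul_zero]
    · intro h0
      exact absurd (Finset.mem_univ _) h0
  have hGd : ∀ a : E → k, (em (G a)).totalDegree ≤ N := by
    intro a
    refine (totalDegree_rename_le _ _).trans ?_
    rw [hGa]
    refine totalDegree_finsetSum_le fun s _ => ?_
    refine (totalDegree_smul_le _ _).trans ?_
    refine (totalDegree_monomial_le _ _).trans ?_
    have := ex_sum s
    rw [Finsupp.sum_fintype _ _ (fun _ => rfl)]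
    show ∑ i, ex s i ≤ N
    omega
  let Ψ : (E → k) →ₗ[k] (Box → k) :=
    { toFun := fun a χ => coeff (nn χ.1) (cmp h.toGr (em (G a)) χ.1)
      map_add' := by
        intro a b
        funext χ
        simp only [Pi.add_apply]
        unfold em
        rw [map_add, map_add, map_add, Finsupp.add_apply, coeff_add]
      map_smul' := by
        intro r a
        funext χ
        simp only [Pi.smul_apply, RingHom.id_apply]
        unfold em
        rw [map_smul, map_smul, map_smul, Finsupp.smul_apply, coeff_smul] }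
  have hker : LinearMap.ker Ψ ≠ ⊥ := by
    refine LinearMap.ker_ne_bot_of_finrank_lt ?_
    rw [Module.finrank_fintype_fun_eq_card, Module.finrank_fintype_fun_eq_card,
      Fintype.card_coe, hBc, hEc]
    exact hN
  obtain ⟨a, haK, ha0⟩ := (Submodule.ne_bot_iff _).1 hker
  rw [LinearMap.mem_ker] at haK
  have hem : em (G a) ≠ 0 := by
    intro h0
    have h6 : G a = 0 := rename_injective _ Sum.inl_injective (by
      rw [map_zero]
      exact h0)
    refine ha0 (funext fun t => ?_)
    rw [← hGc a t, h6, coeff_zero]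
    rfl
  obtain ⟨χ, e, b, he1, he2, hb, hm0, hc⟩ := top_wt h1 h2 h3 hS hnil hcon (G a) hem
  have hcne : cmp h.toGr (em (G a)) χ ≠ 0 := by
    rw [hc]
    exact mul_ne_zero hm0 (by rwa [Ne, C_eq_zero])
  have hχB : χ ∈ Box := by
    rw [hBox, Fintype.mem_piFinset]
    intro l
    rw [Finset.mem_Icc, ← abs_le]
    exact hB N (em (G a)) (hGd a) χ hcne l
  have h7 := congrFun haK ⟨χ, hχB⟩
  have h8 : coeff (nn χ) (cmp h.toGr (em (G a)) χ) = 0 := h7
  rw [hc, mul_comm, coeff_C_mul] at h8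
  exact mul_ne_zero hb (hnn χ e he1 he2 hm0) h8

end Pool.Agent.H90.ST2
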