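import Pool.Agent.H2.ST.Targets

/-!
MP_51eb24_ag, board st2_modules, row DAR: graded symplectic Gram-Schmidt.
-/

set_option autoImplicit false

open Pool.Agent.H2.ST MvPolynomial

namespace Pool.Agent.H90.ST2

variable {k : Type} [Field k] {m : ℕ}

/-- the value of the bracket at the origin -/
noncomputable def B (f g : Pol k m) : k := constantCoeff (br f g)

lemma B_self (f : Pol k m) : B f f = 0 := by
  rw [B, br_self, map_zero]

lemma B_anti (f g : Pol k m) : B f g = -B g f := by
  rw [B, B, br_anti, map_neg]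

lemma B_add (f g h : Pol k m) : B f (g + h) = B f g + B f h := by
  rw [B, B, B, br_add, map_add]

lemma B_sub (f g h : Pol k m) : B f (g - h) = B f g - B f h := by
  rw [B, B, B, br_sub, map_sub]

lemma B_smul (c : k) (f g : Pol k m) : B f (c • g) = c * B f g := by
  rw [B, B, br_smul, smul_eq_C_mul, map_mul, constantCoeff_C]

lemma B_sum {ι : Type} (s : Finset ι) (f : Pol k m) (g : ι → Pol k m) :
    B f (∑ i ∈ s, g i) = ∑ i ∈ s, B f (g i) := by
  rw [B, br_sum, map_sum]
  rfl

lemma sub_B (f g h : Pol k m) : B (f - g) h = B f h - B g h := by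
  rw [B_anti, B_sub, B_anti h f, B_anti h g]
  ring

lemma smul_B (c : k) (f g : Pol k m) : B (c • f) g = c * B f g := by
  rw [B_anti, B_smul, B_anti g f]
  ring

lemma sum_B {ι : Type} (s : Finset ι) (f : Pol k m) (g : ι → Pol k m) :
    B (∑ i ∈ s, g i) f = ∑ i ∈ s, B (g i) f := by
  rw [B_anti, B_sum, ← Finset.sum_neg_distrib]
  exact Finset.sum_congr rfl fun i _ => (B_anti _ _).symm

/-- the linear part at the origin -/
noncomputable def L (k : Type) [Field k] (m : ℕ) : Pol k m →ₗ[k] (Fin m ⊕ Fin m → k) where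
  toFun f s := constantCoeff (pderiv s f)
  map_add' f g := by
    funext s
    rw [map_add, map_add]
    rfl
  map_smul' c f := by
    funext s
    rw [Derivation.map_smul, smul_eq_C_mul, map_mul, constantCoeff_C]
    rfl

lemma L_apply (f : Pol k m) (s : Fin m ⊕ Fin m) : L k m f s = constantCoeff (pderiv s f) := rfl

lemma L_ne {f : Pol k m} (h : L k m f ≠ 0) : ∃ t, B f (X t) ≠ 0 := by
  by_contra hcon
  push Not at hcon
  refine h (funext fun s => ?_)
  rw [L_apply, Pi.zero_apply]
  rcases s with j | j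
  · have h1 := hcon (Sum.inr j)
    rwa [B, br_inr] at h1
  · have h1 := hcon (Sum.inl j)
    rw [B, br_inl, map_neg, neg_eq_zero] at h1
    exact h1

lemma L_surj (v : Fin m ⊕ Fin m → k) : ∃ f, L k m f = v := by
  classical
  refine ⟨∑ s, v s • X s, funext fun t => ?_⟩
  rw [L_apply, map_sum, map_sum, Finset.sum_eq_single t]
  · rw [Derivation.map_smul, pderiv_X_self, smul_eq_C_mul, mul_one, constantCoeff_C]
  · intro s _ hst
    rw [Derivation.map_smul, pderiv_X_of_ne hst, smul_zero, map_zero]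
  · intro h
    exact absurd (Finset.mem_univ _) h

variable {Γ : Type} [AddCommGroup Γ]

/-- partial systems -/
structure Sys (W : Γ → Submodule k (Pol k m)) (j : ℕ) (y z : Fin j → Pol k m)
    (w : Fin j → Γ) : Prop where
  hy : ∀ i, y i ∈ W (w i)
  hz : ∀ i, z i ∈ W (-w i)
  yz : ∀ i l, B (y i) (z l) = if i = l then 1 else 0
  yy : ∀ i l, B (y i) (y l) = 0
  zz : ∀ i l, B (z i) (z l) = 0

/-- the projection -/
noncomputable def Qm {j : ℕ} (y z : Fin j → Pol k m) (f : Pol k m) : Pol k m :=
  f - ∑ i, (B f (z i) • y i - B f (y i) • z i)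

lemma B_van {W : Γ → Submodule k (Pol k m)} (h : PGr W) {a b : Γ} {f g : Pol k m}
    (hf : f ∈ W a) (hg : g ∈ W b) (hab : a + b ≠ 0) : B f g = 0 :=
  h.van _ hab _ (h.pbr a b f g hf hg)

lemma Qm_mem {W : Γ → Submodule k (Pol k m)} (h : PGr W) {j : ℕ} {y z : Fin j → Pol k m}
    {w : Fin j → Γ} (hs : Sys W j y z w) {a : Γ} {f : Pol k m} (hf : f ∈ W a) :
    Qm y z f ∈ W a := by
  refine (W a).sub_mem hf ((W a).sum_mem fun i _ => (W a).sub_mem ?_ ?_)
  · by_cases hc : a + -w i = 0
    · have e : a = w i := by rwa [← sub_eq_add_neg, sub_eq_zero] at hc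
      rw [e]
      exact (W (w i)).smul_mem _ (hs.hy i)
    · rw [B_van h hf (hs.hz i) hc, zero_smul]
      exact (W a).zero_mem
  · by_cases hc : a + w i = 0
    · have e : a = -w i := eq_neg_of_add_eq_zero_left hc
      rw [e]
      exact (W (-w i)).smul_mem _ (hs.hz i)
    · rw [B_van h hf (hs.hy i) hc, zero_smul]
      exact (W a).zero_mem

lemma Qm_y {W : Γ → Submodule k (Pol k m)} {j : ℕ} {y z : Fin j → Pol k m}
    {w : Fin j → Γ} (hs : Sys W j y z w) (f : Pol k m) (l : Fin j) : B (Qm y z f) (y l) = 0 := by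
  rw [Qm, sub_B, sum_B, Finset.sum_eq_single l]
  · rw [sub_B, smul_B, smul_B, hs.yy, B_anti (z l) (y l), hs.yz, if_pos rfl]
    ring
  · intro i _ hil
    rw [sub_B, smul_B, smul_B, hs.yy, B_anti (z i) (y l), hs.yz, if_neg (Ne.symm hil)]
    ring
  · intro hl
    exact absurd (Finset.mem_univ _) hl

lemma Qm_z {W : Γ → Submodule k (Pol k m)} {j : ℕ} {y z : Fin j → Pol k m}
    {w : Fin j → Γ} (hs : Sys W j y z w) (f : Pol k m) (l : Fin j) : B (Qm y z f) (z l) = 0 := by
  rw [Qm, sub_B, sum_B, Finset.sum_eq_single l]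
  · rw [sub_B, smul_B, smul_B, hs.zz, hs.yz, if_pos rfl]
    ring
  · intro i _ hil
    rw [sub_B, smul_B, smul_B, hs.zz, hs.yz, if_neg hil]
    ring
  · intro hl
    exact absurd (Finset.mem_univ _) hl

lemma B_Qm {j : ℕ} {y z : Fin j → Pol k m} {f' : Pol k m} (hy : ∀ i, B f' (y i) = 0)
    (hz : ∀ i, B f' (z i) = 0) (g : Pol k m) : B f' (Qm y z g) = B f' g := by
  rw [Qm, B_sub, B_sum, Finset.sum_eq_zero, sub_zero]
  intro i _
  rw [B_sub, B_smul, B_smul, hy, hz]
  ring

/-- a sum over the components -/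
lemma exists_cmp {W : Γ → Submodule k (Pol k m)} (h : Gr W) (S : Submodule k (Pol k m))
    (f : Pol k m) (hf : f ∉ S) : ∃ a, cmp h f a ∉ S := by
  by_contra hcon
  push Not at hcon
  refine hf ?_
  rw [← cmp_sum h f]
  exact S.sum_mem fun a _ => hcon a

lemma step {W : Γ → Submodule k (Pol k m)} (h : PGr W) {j : ℕ} (hj : j < m)
    {y z : Fin j → Pol k m} {w : Fin j → Γ} (hs : Sys W j y z w) :
    ∃ (y' z' : Fin (j + 1) → Pol k m) (w' : Fin (j + 1) → Γ), Sys W (j + 1) y' z' w' := by
  classical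
  -- the span of the linear parts
  set S : Submodule k (Fin m ⊕ Fin m → k) :=
    Submodule.span k (Set.range (Sum.elim (fun i => L k m (y i)) (fun i => L k m (z i)))) with hS
  have hne : S ≠ ⊤ := by
    intro htop
    have h1 : Module.finrank k S ≤ Fintype.card (Fin j ⊕ Fin j) := finrank_range_le_card _
    rw [htop, finrank_top, Module.finrank_fintype_fun_eq_card, Fintype.card_sum, Fintype.card_sum,
      Fintype.card_fin, Fintype.card_fin] at h1
    omega
  obtain ⟨v, hv⟩ : ∃ v, v ∉ S := by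
    by_contra hcon
    push Not at hcon
    exact hne (eq_top_iff.2 fun v _ => hcon v)
  obtain ⟨f0, hf0⟩ := L_surj v
  obtain ⟨a, ha⟩ := exists_cmp h.toGr (S.comap (L k m)) f0 (by
    rw [Submodule.mem_comap, hf0]
    exact hv)
  set f := cmp h.toGr f0 a with hf
  have hfa : f ∈ W a := cmp_mem h.toGr f0 a
  set f' := Qm y z f with hf'
  have hLf' : L k m f' ≠ 0 := by
    intro h0
    refine ha ?_
    rw [Submodule.mem_comap]
    have e : f = f' + ∑ i, (B f (z i) • y i - B f (y i) • z i) := by
      rw [hf', Qm]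
      ring
    rw [e, map_add, h0, zero_add, map_sum]
    refine S.sum_mem fun i _ => ?_
    rw [map_sub, map_smul, map_smul]
    refine S.sub_mem (S.smul_mem _ (Submodule.subset_span ⟨Sum.inl i, rfl⟩))
      (S.smul_mem _ (Submodule.subset_span ⟨Sum.inr i, rfl⟩))
  have hf'a : f' ∈ W a := Qm_mem h hs hfa
  obtain ⟨t, ht⟩ := L_ne hLf'
  obtain ⟨b, hb⟩ : ∃ b, B f' (cmp h.toGr (X t) b) ≠ 0 := by
    by_contra hcon
    push Not at hcon
    refine ht ?_
    have e := cmp_sum h.toGr (X t : Pol k m)
    rw [← e, Finsupp.sum, B_sum]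
    exact Finset.sum_eq_zero fun b _ => hcon b
  set g0 := cmp h.toGr (X t : Pol k m) b with hg0
  have hg0b : g0 ∈ W b := cmp_mem h.toGr _ b
  have hab : a + b = 0 := by
    by_contra hne
    exact hb (B_van h hf'a hg0b hne)
  have hb' : b = -a := eq_neg_of_add_eq_zero_right hab
  have hy0 : ∀ i, B f' (y i) = 0 := fun i => Qm_y hs f i
  have hz0 : ∀ i, B f' (z i) = 0 := fun i => Qm_z hs f i
  have hg1 : B f' (Qm y z g0) = B f' g0 := B_Qm hy0 hz0 g0
  set g := (B f' g0)⁻¹ • Qm y z g0 with hg
  have hgm : g ∈ W (-a) := by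
    rw [← hb']
    exact (W b).smul_mem _ (Qm_mem h hs hg0b)
  have hfg : B f' g = 1 := by
    rw [hg, B_smul, hg1, inv_mul_cancel₀ hb]
  have hgy : ∀ i, B g (y i) = 0 := fun i => by rw [hg, smul_B, Qm_y hs, mul_zero]
  have hgz : ∀ i, B g (z i) = 0 := fun i => by rw [hg, smul_B, Qm_z hs, mul_zero]
  refine ⟨Fin.cons f' y, Fin.cons g z, Fin.cons a w, ?_, ?_, ?_, ?_, ?_⟩
  · intro i
    refine Fin.cases ?_ (fun i => ?_) i
    · exact hf'a
    · exact hs.hy i
  · intro i
    refine Fin.cases ?_ (fun i => ?_) i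
    · exact hgm
    · exact hs.hz i
  · intro i l
    refine Fin.cases ?_ (fun i => ?_) i
    · refine Fin.cases ?_ (fun l => ?_) l
      · rw [if_pos rfl]
        exact hfg
      · rw [if_neg (Fin.succ_ne_zero l).symm]
        exact hz0 l
    · refine Fin.cases ?_ (fun l => ?_) l
      · rw [if_neg (Fin.succ_ne_zero i)]
        show B (y i) g = 0
        rw [B_anti, hgy, neg_zero]
      · have e : (if i.succ = l.succ then (1 : k) else 0) = if i = l then 1 else 0 := by
          simp only [Fin.succ_inj]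
        rw [e]
        exact hs.yz i l
  · intro i l
    refine Fin.cases ?_ (fun i => ?_) i
    · refine Fin.cases ?_ (fun l => ?_) l
      · exact B_self f'
      · exact hy0 l
    · refine Fin.cases ?_ (fun l => ?_) l
      · show B (y i) f' = 0
        rw [B_anti, hy0, neg_zero]
      · exact hs.yy i l
  · intro i l
    refine Fin.cases ?_ (fun i => ?_) i
    · refine Fin.cases ?_ (fun l => ?_) l
      · exact B_self g
      · exact hgz l
    · refine Fin.cases ?_ (fun l => ?_) l
      · show B (z i) g = 0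
        rw [B_anti, hgz, neg_zero]
      · exact hs.zz i l

lemma exists_sys {W : Γ → Submodule k (Pol k m)} (h : PGr W) :
    ∀ j : ℕ, j ≤ m → ∃ (y z : Fin j → Pol k m) (w : Fin j → Γ), Sys W j y z w := by
  intro j
  induction j with
  | zero =>
    intro _
    exact ⟨fun i => i.elim0, fun i => i.elim0, fun i => i.elim0,
      ⟨fun i => i.elim0, fun i => i.elim0, fun i => i.elim0, fun i => i.elim0,
        fun i => i.elim0⟩⟩
  | succ j ih =>
    intro hj
    obtain ⟨y, z, w, hs⟩ := ih (by omega)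
    exact step h (by omega) hs

/-- subtraction of the constant -/
lemma sub_const_mem {W : Γ → Submodule k (Pol k m)} (h : PGr W) {a : Γ} {f : Pol k m}
    (hf : f ∈ W a) : f - C (constantCoeff f) ∈ W a := by
  by_cases ha : a = 0
  · rw [ha] at hf ⊢
    refine (W 0).sub_mem hf ?_
    exact algebraMap_mem_gr h.toGr _
  · rw [h.van a ha f hf, C_0, sub_zero]
    exact hf

lemma B_const (f g : Pol k m) (c d : k) : constantCoeff (br (f - C c) (g - C d)) = B f g := by
  rw [B, sub_br, br_sub, br_sub, br_C, C_br, C_br, sub_zero, sub_zero, sub_zero]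

theorem pf_DAR : T_DAR := by
  intro k _ m Γ _ W h
  obtain ⟨y, z, w, hs⟩ := exists_sys h m le_rfl
  refine ⟨Sum.elim (fun i => y i - C (constantCoeff (y i))) (fun i => z i - C (constantCoeff (z i))),
    w, ?_, ?_, ?_, ?_, ?_, ?_⟩
  · intro i
    exact sub_const_mem h (hs.hy i)
  · intro i
    exact sub_const_mem h (hs.hz i)
  · rintro (i | i)
    · show constantCoeff (y i - C (constantCoeff (y i))) = 0
      rw [map_sub, constantCoeff_C, sub_self]
    · show constantCoeff (z i - C (constantCoeff (z i))) = 0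
      rw [map_sub, constantCoeff_C, sub_self]
  · intro i l
    show constantCoeff (br (y i - C (constantCoeff (y i))) (z l - C (constantCoeff (z l)))) = _
    rw [B_const]
    exact hs.yz i l
  · intro i l
    show constantCoeff (br (y i - C (constantCoeff (y i))) (y l - C (constantCoeff (y l)))) = _
    rw [B_const]
    exact hs.yy i l
  · intro i l
    show constantCoeff (br (z i - C (constantCoeff (z i))) (z l - C (constantCoeff (z l)))) = _
    rw [B_const]
    exact hs.zz i l

end Pool.Agent.H90.ST2
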